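import Pool.Agent.MP_e0214e_ag.Mg.Main

set_option autoImplicit false

namespace Pool.Agent.Results.MP_e0214e_ag.FermatType

/-- Every point of the hypersurface `∑_{i ∈ A} X_i ^ d + G = 0`, where `|A| ≥ d + 2` and `G` is any
form of degree `d` in the remaining variables, lies in the Zariski closure of the image of a
rational map from the plane to the hypersurface with two-dimensional image. -/
theorem result :
    ∀ (n d : ℕ) (A : Finset (Fin (n + 1))) (G f : MvPolynomial (Fin (n + 1)) ℂ),
      2 ≤ d → d + 2 ≤ A.card → G.IsHomogeneous d → (∀ i ∈ G.vars, i ∉ A) →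
      f = ∑ i ∈ A, MvPolynomial.X i ^ d + G →
      ∀ v : Fin (n + 1) → ℂ, v ≠ 0 → MvPolynomial.eval v f = 0 →
        ∃ (e : ℕ) (g : Fin (n + 1) → MvPolynomial (Fin 3) ℂ),
          (∀ i, (g i).IsHomogeneous e) ∧
          (∃ a b c : Fin (n + 1), AlgebraicIndependent ℂ ![g a, g b, g c]) ∧
          MvPolynomial.aeval g f = 0 ∧
          ∀ h : MvPolynomial (Fin (n + 1)) ℂ,
            MvPolynomial.aeval g h = 0 → MvPolynomial.eval v h = 0 := by
  rintro n d A G f hd hA hG hGA rfl v hv0 hv
  exact Pool.Agent.MP_e0214e_ag.concl_main hd A hA G hG hGA v hv0 hv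

end Pool.Agent.Results.MP_e0214e_ag.FermatType
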