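import Pool.Agent.MP_e0214e_ag.Mg.H61_Bertini

set_option autoImplicit false

namespace Pool.Agent.Results.MP_e0214e_ag.Quartic

/-- Every point of every smooth complex quartic hypersurface of dimension at least three lies in
the Zariski closure of the image of a rational map from the plane with two-dimensional image. -/
theorem result :
    ∀ (n : ℕ) (f : MvPolynomial (Fin (n + 1)) ℂ), 4 ≤ n → f.IsHomogeneous 4 →
      (∀ v : Fin (n + 1) → ℂ, v ≠ 0 → MvPolynomial.eval v f = 0 →
        ∃ i, MvPolynomial.eval v (MvPolynomial.pderiv i f) ≠ 0) →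
      ∀ v : Fin (n + 1) → ℂ, v ≠ 0 → MvPolynomial.eval v f = 0 →
        ∃ (e : ℕ) (g : Fin (n + 1) → MvPolynomial (Fin 3) ℂ),
          (∀ i, (g i).IsHomogeneous e) ∧
          (∃ a b c : Fin (n + 1), AlgebraicIndependent ℂ ![g a, g b, g c]) ∧
          MvPolynomial.aeval g f = 0 ∧
          ∀ h : MvPolynomial (Fin (n + 1)) ℂ,
            MvPolynomial.aeval g h = 0 → MvPolynomial.eval v h = 0 :=
  Pool.Agent.MP_e0214e_ag.H61.quartic

end Pool.Agent.Results.MP_e0214e_ag.Quartic
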